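import Mathlib

/-!
Algebraic entropy of the actions of amenable groups on abelian groups: definitions.
-/

set_option autoImplicit false

open Finset Filter Topology
open scoped Pointwise

namespace Pool.Agent.Q92.Ent

universe u v

open Classical in
/-- The trajectory `T_F(α, X) = ∑_{g ∈ F} g • X`. -/
noncomputable def traj {G : Type u} [Group G] {A : Type v} [AddCommGroup A] [DistribMulAction G A]
    (F : Finset G) (X : Finset A) : Finset A :=
  ∑ g ∈ F, X.image (fun x => g • x)

open Classical in
/-- The size of the symmetric difference of `F g` and `F`. -/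
noncomputable def sdc {G : Type u} [Group G] (F : Finset G) (g : G) : ℕ :=
  (symmDiff (F.image (fun x => x * g)) F).card

/-- `(F_i)` is a right Følner net of the group `G`. -/
structure IsRightFolner {G : Type u} [Group G] {ι : Type u} [Preorder ι] (F : ι → Finset G) :
    Prop where
  nonempty : ∀ i, (F i).Nonempty
  tendsto : ∀ g : G, Tendsto (fun i => (sdc (F i) g : ℝ) / (F i).card) atTop (𝓝 0)

/-- The group `G` is amenable: it has a right Følner net. -/
def IsAmenable (G : Type u) [Group G] : Prop :=
  ∃ (ι : Type u) (_ : Preorder ι) (_ : IsDirectedOrder ι) (_ : Nonempty ι) (F : ι → Finset G),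
    IsRightFolner F

/-- `r` is the value `H_alg(α, X)`: the limit of `log |T_{F_i}(α, X)| / |F_i|` for each right
Følner net `(F_i)` of `G`. -/
def IsHalg (G : Type u) [Group G] {A : Type v} [AddCommGroup A] [DistribMulAction G A]
    (X : Finset A) (r : ℝ) : Prop :=
  ∀ (ι : Type u) [Preorder ι] [IsDirectedOrder ι] [Nonempty ι] (F : ι → Finset G),
    IsRightFolner F →
    Tendsto (fun i => Real.log (traj (F i) X).card / ((F i).card : ℝ)) atTop (𝓝 r)

/-- The entropy `h_alg(α)` of the action of `G` on `A`. -/
noncomputable def halg (G : Type u) [Group G] (A : Type v) [AddCommGroup A]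
    [DistribMulAction G A] : EReal :=
  sSup {c : EReal | ∃ (X : Finset A) (r : ℝ), X.Nonempty ∧ IsHalg G X r ∧ c = r}

/-- The entropy `ent(α)` of the action of `G` on `A`. -/
noncomputable def ent (G : Type u) [Group G] (A : Type v) [AddCommGroup A]
    [DistribMulAction G A] : EReal :=
  sSup {c : EReal | ∃ (X : Finset A) (r : ℝ), (∃ K : AddSubgroup A, (K : Set A) = X) ∧
    IsHalg G X r ∧ c = r}

end Pool.Agent.Q92.Ent
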