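import Pool.Agent.Q92.Ent.Rule

/-!
Algebraic entropy and subgroups.
-/

set_option autoImplicit false

open Finset Filter Topology
open scoped Pointwise

namespace Pool.Agent.Q92.Ent

universe u v

section Sub

variable {G : Type u} [Group G]

lemma sdc_le_of {G : Type*} [Group G] {K : Finset G} {g : G} {β : Type*} (S : Finset β)
    (f : G → β) (hf : Function.Injective f)
    (h : ∀ x, (((∃ y ∈ K, y * g = x) ∧ x ∉ K) ∨ (x ∈ K ∧ ¬ ∃ y ∈ K, y * g = x)) → f x ∈ S) :
    sdc K g ≤ S.card := by
  classical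
  unfold sdc
  apply card_le_card_of_injOn f
  · intro x hx
    apply h
    rcases mem_symmDiff.1 (mem_coe.1 hx) with h1 | h1
    · exact Or.inl ⟨mem_image.1 h1.1, h1.2⟩
    · exact Or.inr ⟨h1.1, fun h2 => h1.2 (mem_image.2 h2)⟩
  · exact hf.injOn

/-- Subgroups of amenable groups are amenable. -/
theorem IsAmenable.subgroup (hG : IsAmenable G) (H : Subgroup G) : IsAmenable H := by
  classical
  obtain ⟨ι, _, _, _, F, hF⟩ := hG
  -- the key: almost invariant sets of `H`
  have key : ∀ (E : Finset H) (n : ℕ), ∃ K : Finset H, K.Nonempty ∧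
      ∀ g ∈ E, (sdc K g : ℝ) * (n + 1) ≤ K.card := by
    intro E n
    -- an almost invariant set of `G`
    have h1 : Tendsto (fun i => ∑ g ∈ E,
        ((symmDiff ((F i).image (fun x => x * (g : G))) (F i)).card : ℝ) / (F i).card)
        atTop (𝓝 0) := by
      have := tendsto_finsetSum E fun g (_ : g ∈ E) => hF.tendsto (g : G)
      unfold sdc at this
      simpa using this
    have hε : (0 : ℝ) < 1 / (n + 1) := by positivity
    obtain ⟨i, hi⟩ := (h1.eventually_lt_const hε).exists
    set P := F i with hP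
    have hPne : P.Nonempty := hF.nonempty i
    have hPc : (0 : ℝ) < P.card := by exact_mod_cast hPne.card_pos
    rw [← sum_div, div_lt_div_iff₀ hPc (by positivity), one_mul] at hi
    -- the left cosets
    let q : G → G ⧸ H := fun x => (x : G ⧸ H)
    let T : Finset (G ⧸ H) := P.image q
    have hdec : ∀ g ∈ E, ((symmDiff (P.image (fun x => x * (g : G))) P).card : ℝ) =
        ∑ t ∈ T, (((symmDiff (P.image (fun x => x * (g : G))) P).filter (fun x => q x = t)).card : ℝ) := by
      intro g _
      have h2 := card_eq_sum_card_fiberwise (f := q) (s := symmDiff (P.image (fun x => x * (g : G))) P)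
        (t := T) (by
          intro x hx
          rcases mem_symmDiff.1 (mem_coe.1 hx) with h | h
          · obtain ⟨y, hy, rfl⟩ := mem_image.1 h.1
            refine mem_coe.2 (mem_image.2 ⟨y, hy, ?_⟩)
            show (y : G ⧸ H) = ((y * g : G) : G ⧸ H)
            rw [QuotientGroup.eq]
            simp
          · exact mem_coe.2 (mem_image_of_mem _ h.1))
      exact_mod_cast h2
    have hdecP : (P.card : ℝ) = ∑ t ∈ T, ((P.filter (fun x => q x = t)).card : ℝ) := by
      have h2 := card_eq_sum_card_fiberwise (f := q) (s := P) (t := T)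
        (fun x hx => mem_coe.2 (mem_image_of_mem _ (mem_coe.1 hx)))
      exact_mod_cast h2
    have hex : ∃ t ∈ T, (∑ g ∈ E,
        (((symmDiff (P.image (fun x => x * (g : G))) P).filter (fun x => q x = t)).card : ℝ)) *
          (n + 1) < ((P.filter (fun x => q x = t)).card : ℝ) := by
      by_contra hcon
      push Not at hcon
      have h2 := sum_le_sum hcon
      rw [← hdecP, ← sum_mul, sum_comm, ← sum_congr rfl hdec] at h2
      linarith
    obtain ⟨t, ht, hlt⟩ := hex
    obtain ⟨t0, ht0, rfl⟩ := mem_image.1 ht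
    -- translate to `H`
    have hmemH : ∀ x, q x = q t0 → t0⁻¹ * x ∈ H := by
      intro x hx
      exact QuotientGroup.eq.1 hx.symm
    let K : Finset H := (P.filter (fun x => q x = q t0)).attach.image
      (fun x => (⟨t0⁻¹ * x.1, hmemH _ (by
        have h9 := (mem_filter.1 x.2).2
        exact h9)⟩ : H))
    have hK : ∀ h : H, h ∈ K ↔ t0 * (h : G) ∈ P := by
      intro h
      constructor
      · intro hh
        obtain ⟨x, _, rfl⟩ := mem_image.1 hh
        show t0 * (t0⁻¹ * (x : G)) ∈ P
        rw [mul_inv_cancel_left]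
        exact (mem_filter.1 x.2).1
      · intro hh
        refine mem_image.2 ⟨⟨t0 * h, mem_filter.2 ⟨hh, ?_⟩⟩, mem_attach _ _, ?_⟩
        · show ((t0 * h : G) : G ⧸ H) = (t0 : G ⧸ H)
          rw [eq_comm, QuotientGroup.eq]
          simp
        · apply Subtype.ext
          simp
    have hKc : K.card = (P.filter (fun x => q x = q t0)).card := by
      rw [card_image_of_injective, card_attach]
      intro x y hxy
      have := congrArg Subtype.val hxy
      exact Subtype.ext (mul_left_cancel this)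
    refine ⟨K, ⟨1, (hK 1).2 (by simpa using ht0)⟩, ?_⟩
    intro g hg
    have h3 : sdc K g ≤
        ((symmDiff (P.image (fun x => x * (g : G))) P).filter (fun x => q x = q t0)).card := by
      apply sdc_le_of _ (fun h : H => t0 * (h : G))
        (fun a b hab => Subtype.ext (mul_left_cancel hab))
      intro h hh
      rw [mem_filter]
      have hq : q (t0 * h) = q t0 := by
        show ((t0 * h : G) : G ⧸ H) = (t0 : G ⧸ H)
        rw [eq_comm, QuotientGroup.eq]
        simp
      refine ⟨?_, hq⟩
      rw [mem_symmDiff]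
      have hmul : ∀ h : H, (∃ k ∈ K, k * g = h) ↔
          t0 * (h : G) ∈ P.image (fun x => x * (g : G)) := by
        intro h
        constructor
        · rintro ⟨k, hk, rfl⟩
          refine mem_image.2 ⟨t0 * k, (hK k).1 hk, ?_⟩
          show t0 * (k : G) * g = t0 * ((k * g : H) : G)
          rw [Subgroup.coe_mul, mul_assoc]
        · intro hh
          obtain ⟨y, hy, hyx⟩ := mem_image.1 hh
          refine ⟨h * g⁻¹, (hK _).2 ?_, by group⟩
          have : t0 * ((h * g⁻¹ : H) : G) = y := by
            rw [Subgroup.coe_mul, Subgroup.coe_inv, ← mul_assoc, ← hyx, mul_inv_cancel_right]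
          rw [this]
          exact hy
      rcases hh with h4 | h4
      · exact Or.inl ⟨(hmul h).1 h4.1, fun h5 => h4.2 ((hK h).2 h5)⟩
      · exact Or.inr ⟨(hK h).1 h4.1, fun h5 => h4.2 ((hmul h).2 h5)⟩
    have h4 : (((symmDiff (P.image (fun x => x * (g : G))) P).filter
        (fun x => q x = q t0)).card : ℝ) ≤ ∑ g ∈ E,
        (((symmDiff (P.image (fun x => x * (g : G))) P).filter
          (fun x => q x = q t0)).card : ℝ) :=
      single_le_sum (f := fun g : H => (((symmDiff (P.image (fun x => x * (g : G))) P).filter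
          (fun x => q x = q t0)).card : ℝ)) (fun _ _ => Nat.cast_nonneg _) hg
    have h5 : (sdc K g : ℝ) ≤
        (((symmDiff (P.image (fun x => x * (g : G))) P).filter
          (fun x => q x = q t0)).card : ℝ) := by exact_mod_cast h3
    have hn : (0 : ℝ) < n + 1 := by positivity
    calc (sdc K g : ℝ) * (n + 1)
        ≤ _ := mul_le_mul_of_nonneg_right (h5.trans h4) hn.le
      _ ≤ _ := hlt.le
      _ = K.card := by rw [hKc]
  choose K hK1 hK2 using key
  refine ⟨Finset H × ULift.{u} ℕ, inferInstance, inferInstance, inferInstance,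
    fun p => K p.1 p.2.down, fun p => hK1 _ _, ?_⟩
  intro g
  rw [tendsto_order]
  constructor
  · intro a ha
    exact Eventually.of_forall fun p => ha.trans_le (by positivity)
  · intro a ha
    obtain ⟨n, hn⟩ := exists_nat_one_div_lt ha
    filter_upwards [eventually_ge_atTop (({g}, ULift.up n) : Finset H × ULift.{u} ℕ)] with p hp
    have hgp : g ∈ p.1 := hp.1 (mem_singleton_self g)
    have hnp : n ≤ p.2.down := hp.2
    have h1 := hK2 p.1 p.2.down g hgp
    have hpos : (0 : ℝ) < (K p.1 p.2.down).card := by exact_mod_cast (hK1 _ _).card_pos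
    have hn' : (0 : ℝ) < (n : ℝ) + 1 := by positivity
    have hnp' : (n : ℝ) ≤ (p.2.down : ℝ) := by exact_mod_cast hnp
    refine lt_of_le_of_lt ?_ hn
    rw [div_le_div_iff₀ hpos hn', one_mul]
    have h6 : (n : ℝ) + 1 ≤ (p.2.down : ℝ) + 1 := by linarith
    exact (mul_le_mul_of_nonneg_left h6 (Nat.cast_nonneg _)).trans h1

end Sub

section Main

variable {G : Type u} [Group G] {A : Type v} [AddCommGroup A] [DistribMulAction G A]

open Classical in
lemma card_traj_map (H : Subgroup G) (F : Finset H) (X : Finset A) :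
    traj (F.image (fun h : H => (h : G))) X = traj F X := by
  unfold traj
  rw [sum_image (fun a _ b _ h => Subtype.ext h)]
  rfl

lemma infH_le_sub (H : Subgroup G) (X : Finset A) : infH G X ≤ infH H X := by
  classical
  apply le_infH
  intro F hF
  have h1 := infH_le (G := G) X (hF.image (fun h : H => (h : G)))
  have h2 : rat X (F.image (fun h : H => (h : G))) = rat X F := by
    unfold rat
    rw [card_traj_map, card_image_of_injective _ Subtype.val_injective]
  rwa [h2] at h1

/-- The entropy does not decrease when one passes to a subgroup. -/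
theorem halg_le (hG : IsAmenable G) (H : Subgroup G) : halg G A ≤ halg H A := by
  apply sSup_le
  rintro c ⟨X, r, hX, hr, rfl⟩
  rw [hr.eq_infH hG hX]
  refine le_trans (EReal.coe_le_coe_iff.2 (infH_le_sub H X)) (le_sSup ?_)
  exact ⟨X, _, hX, isHalg_infH hX, rfl⟩

theorem ent_le (hG : IsAmenable G) (H : Subgroup G) : ent G A ≤ ent H A := by
  apply sSup_le
  rintro c ⟨X, r, hX, hr, rfl⟩
  have hXne : X.Nonempty := by
    obtain ⟨K, hK⟩ := hX
    refine ⟨0, ?_⟩
    rw [← mem_coe, ← hK]
    exact K.zero_mem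
  rw [hr.eq_infH hG hXne]
  refine le_trans (EReal.coe_le_coe_iff.2 (infH_le_sub H X)) (le_sSup ?_)
  exact ⟨X, _, hX, isHalg_infH hXne, rfl⟩

open Classical in
lemma traj_traj (H : Subgroup G) (E : Finset G)
    (hE : ∀ e ∈ E, ∀ e' ∈ E, e * e'⁻¹ ∈ H → e = e') (F : Finset H) (X : Finset A) :
    traj F (traj E X) = traj ((F ×ˢ E).image (fun p => (p.1 : G) * p.2)) X ∧
      ((F ×ˢ E).image (fun p => (p.1 : G) * p.2)).card = F.card * E.card := by
  have hinj : Set.InjOn (fun p : H × G => (p.1 : G) * p.2) (F ×ˢ E : Finset (H × G)) := by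
    rintro ⟨h, e⟩ hp ⟨h', e'⟩ hp' heq
    rw [mem_coe, mem_product] at hp hp'
    have heq' : (h : G) * e = h' * e' := heq
    have h1 : e * e'⁻¹ = ((h⁻¹ * h' : H) : G) := by
      rw [Subgroup.coe_mul, Subgroup.coe_inv, eq_inv_mul_iff_mul_eq, ← mul_assoc, heq',
        mul_inv_cancel_right]
    have h2 : e = e' := hE e hp.2 e' hp'.2 (by rw [h1]; exact (h⁻¹ * h').2)
    subst h2
    have h3 : h = h' := Subtype.ext (mul_right_cancel heq')
    rw [h3]
  constructor
  · unfold traj
    rw [sum_image hinj, sum_product]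
    apply sum_congr rfl
    intro h _
    ext a
    rw [mem_image, mem_sumset]
    constructor
    · rintro ⟨b, hb, rfl⟩
      obtain ⟨x, hx, rfl⟩ := mem_sumset.1 hb
      refine ⟨fun e => h • x e, ?_, (smul_sum).symm⟩
      intro e he
      obtain ⟨y, hy, hyx⟩ := mem_image.1 (hx e he)
      refine mem_image.2 ⟨y, hy, ?_⟩
      show ((h : G) * e) • y = h • x e
      rw [← hyx, mul_smul]
      rfl
    · rintro ⟨x, hx, rfl⟩
      refine ⟨∑ e ∈ E, h⁻¹ • x e, mem_sumset.2 ⟨fun e => h⁻¹ • x e, ?_, rfl⟩, ?_⟩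
      · intro e he
        obtain ⟨y, hy, hyx⟩ := mem_image.1 (hx e he)
        refine mem_image.2 ⟨y, hy, ?_⟩
        show e • y = h⁻¹ • x e
        rw [← hyx]
        show e • y = (h⁻¹ : H) • ((h : G) * e) • y
        rw [mul_smul]
        show e • y = (h⁻¹ : H) • h • e • y
        rw [inv_smul_smul]
      · rw [smul_sum]
        exact sum_congr rfl fun e _ => smul_inv_smul _ _
  · rw [card_image_of_injOn hinj, card_product]

/-- In a subgroup of infinite index there are arbitrarily many different right cosets. -/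
lemma exists_transversal (H : Subgroup G) (hH : H.index = 0) (n : ℕ) :
    ∃ E : Finset G, E.card = n ∧ ∀ e ∈ E, ∀ e' ∈ E, e * e'⁻¹ ∈ H → e = e' := by
  classical
  have hinf : Infinite (G ⧸ H) := by
    rw [← not_finite_iff_infinite]
    intro hfin
    exact (Subgroup.index_ne_zero_of_finite (H := H)) hH
  obtain ⟨S, hS⟩ := Infinite.exists_subset_card_eq (G ⧸ H) n
  let f : G ⧸ H → G := fun q => (Quotient.out q)⁻¹
  have hf : Function.Injective f := by
    intro a b hab
    have h1 : Quotient.out a = Quotient.out b := inv_injective hab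
    rw [← Quotient.out_eq a, ← Quotient.out_eq b, h1]
  refine ⟨S.image f, by rw [card_image_of_injective _ hf, hS], ?_⟩
  intro e he e' he' hee
  obtain ⟨a, _, rfl⟩ := mem_image.1 he
  obtain ⟨b, _, rfl⟩ := mem_image.1 he'
  congr 1
  have h1 : (Quotient.out a)⁻¹ * Quotient.out b ∈ H := by
    have : f a * (f b)⁻¹ = (Quotient.out a)⁻¹ * Quotient.out b := by
      show (Quotient.out a)⁻¹ * ((Quotient.out b)⁻¹)⁻¹ = _
      rw [inv_inv]
    rwa [this] at hee
  have h2 := QuotientGroup.eq.2 h1
  have ha : ((Quotient.out a : G) : G ⧸ H) = a := Quotient.out_eq' a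
  have hb : ((Quotient.out b : G) : G ⧸ H) = b := Quotient.out_eq' b
  rwa [ha, hb] at h2

open Classical in
lemma mul_infH_le (H : Subgroup G) {E : Finset G} (hEne : E.Nonempty)
    (hE : ∀ e ∈ E, ∀ e' ∈ E, e * e'⁻¹ ∈ H → e = e') (X : Finset A) :
    E.card * infH G X ≤ infH H (traj E X) := by
  apply le_infH
  intro F hF
  obtain ⟨h1, h2⟩ := traj_traj H E hE F X
  have h3 : infH G X ≤ rat X ((F ×ˢ E).image (fun p => (p.1 : G) * p.2)) :=
    infH_le X ((hF.product hEne).image _)
  unfold rat at h3 ⊢
  rw [h1]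
  rw [h2] at h3
  have hEc : (0 : ℝ) < E.card := by exact_mod_cast hEne.card_pos
  have hFc : (0 : ℝ) < F.card := by exact_mod_cast hF.card_pos
  rw [le_div_iff₀ hFc]
  push_cast at h3
  rw [le_div_iff₀ (by positivity)] at h3
  calc (E.card : ℝ) * infH G X * F.card = infH G X * (F.card * E.card) := by ring
    _ ≤ _ := h3

lemma infH_eq_zero_of_bdd (H : Subgroup G) (hH : H.index = 0) (X : Finset A) {c : EReal}
    (hc : c < ⊤) (h : ∀ E : Finset G, E.Nonempty → ((infH H (traj E X) : ℝ) : EReal) ≤ c) :
    infH G X = 0 := by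
  refine le_antisymm ?_ (infH_nonneg X)
  by_contra hpos
  push Not at hpos
  have hcb : c ≠ ⊥ := by
    rintro rfl
    have := h {1} (singleton_nonempty 1)
    exact absurd this (by simp)
  lift c to ℝ using ⟨hc.ne, hcb⟩ with c' hc'
  obtain ⟨n, hn⟩ := exists_nat_gt (c' / infH G X)
  obtain ⟨E, hEc, hE⟩ := exists_transversal H hH (n + 1)
  have hEne : E.Nonempty := card_pos.1 (by omega)
  have h1 := mul_infH_le H hEne hE X
  have h2 := EReal.coe_le_coe_iff.1 (h E hEne)
  rw [div_lt_iff₀ hpos] at hn
  rw [hEc] at h1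
  push_cast at h1
  nlinarith

/-- If the entropy of a subgroup of infinite index is finite then the entropy is zero. -/
theorem halg_eq_zero (hG : IsAmenable G) (H : Subgroup G) (hH : H.index = 0)
    (hfin : halg H A < ⊤) : halg G A = 0 := by
  have h0 : ∀ X : Finset A, X.Nonempty → infH G X = 0 := by
    intro X hX
    refine infH_eq_zero_of_bdd H hH X hfin ?_
    intro E _
    exact le_sSup ⟨traj E X, _, traj_nonempty E hX, isHalg_infH (traj_nonempty E hX), rfl⟩
  apply le_antisymm
  · apply sSup_le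
    rintro c ⟨X, r, hX, hr, rfl⟩
    rw [hr.eq_infH hG hX, h0 X hX]
    simp
  · refine le_sSup ⟨{0}, 0, singleton_nonempty 0, ?_, by simp⟩
    have := isHalg_infH (G := G) (X := ({0} : Finset A)) (singleton_nonempty 0)
    rwa [h0 _ (singleton_nonempty 0)] at this

lemma traj_subgroup (E : Finset G) {X : Finset A} (hX : ∃ K : AddSubgroup A, (K : Set A) = X) :
    ∃ K : AddSubgroup A, (K : Set A) = traj E X := by
  obtain ⟨K, hK⟩ := hX
  have hmem : ∀ a, a ∈ X ↔ a ∈ K := fun a => by
    rw [← mem_coe, ← hK]; rfl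
  refine ⟨{ carrier := traj E X, zero_mem' := ?_, add_mem' := ?_, neg_mem' := ?_ }, rfl⟩
  · intro a b ha hb
    obtain ⟨x, hx, rfl⟩ := mem_traj.1 (mem_coe.1 ha)
    obtain ⟨y, hy, rfl⟩ := mem_traj.1 (mem_coe.1 hb)
    refine mem_coe.2 (mem_traj.2 ⟨fun g => x g + y g, ?_, ?_⟩)
    · intro g hg
      exact (hmem _).2 (K.add_mem ((hmem _).1 (hx g hg)) ((hmem _).1 (hy g hg)))
    · rw [← sum_add_distrib]
      exact sum_congr rfl fun g _ => smul_add _ _ _
  · refine mem_coe.2 (mem_traj.2 ⟨fun _ => 0, fun g _ => (hmem _).2 K.zero_mem, ?_⟩)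
    exact sum_eq_zero fun g _ => smul_zero g
  · intro a ha
    obtain ⟨x, hx, rfl⟩ := mem_traj.1 (mem_coe.1 ha)
    refine mem_coe.2 (mem_traj.2 ⟨fun g => - x g, ?_, ?_⟩)
    · intro g hg
      exact (hmem _).2 (K.neg_mem ((hmem _).1 (hx g hg)))
    · rw [← sum_neg_distrib]
      exact sum_congr rfl fun g _ => smul_neg _ _

theorem ent_eq_zero (hG : IsAmenable G) (H : Subgroup G) (hH : H.index = 0)
    (hfin : ent H A < ⊤) : ent G A = 0 := by
  have hne : ∀ X : Finset A, (∃ K : AddSubgroup A, (K : Set A) = X) → X.Nonempty := by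
    rintro X ⟨K, hK⟩
    refine ⟨0, ?_⟩
    rw [← mem_coe, ← hK]
    exact K.zero_mem
  have h0 : ∀ X : Finset A, (∃ K : AddSubgroup A, (K : Set A) = X) → infH G X = 0 := by
    intro X hX
    refine infH_eq_zero_of_bdd H hH X hfin ?_
    intro E _
    exact le_sSup ⟨traj E X, _, traj_subgroup E hX,
      isHalg_infH (traj_nonempty E (hne X hX)), rfl⟩
  have hz : ∃ K : AddSubgroup A, (K : Set A) = (({0} : Finset A) : Set A) := ⟨⊥, by simp⟩
  apply le_antisymm
  · apply sSup_le
    rintro c ⟨X, r, hX, hr, rfl⟩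
    rw [hr.eq_infH hG (hne X hX), h0 X hX]
    simp
  · refine le_sSup ⟨{0}, 0, hz, ?_, by simp⟩
    have := isHalg_infH (G := G) (X := ({0} : Finset A)) (singleton_nonempty 0)
    rwa [h0 _ hz] at this

end Main

end Pool.Agent.Q92.Ent
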