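import Pool.Agent.Helper948.Ent.A1

/-!
Shearer's inequality for the sizes of sumsets.
-/

set_option autoImplicit false

open Finset
open scoped Pointwise

namespace Pool.Agent.Q92.Ent

variable {ι A : Type*} [AddCommGroup A]

open Classical in
lemma mem_sumset {B : ι → Finset A} {F : Finset ι} {s : A} :
    s ∈ ∑ i ∈ F, B i ↔ ∃ x : ι → A, (∀ i ∈ F, x i ∈ B i) ∧ ∑ i ∈ F, x i = s := by
  rw [← mem_coe, coe_sum, Set.mem_finsetSum]
  constructor
  · rintro ⟨x, hx, h⟩
    exact ⟨x, fun i hi => hx hi, h⟩
  · rintro ⟨x, hx, h⟩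
    exact ⟨x, fun hi => hx _ hi, h⟩

open Classical in
/-- A set of tuples which represents each element of the sumset and on which the partial sums
determine the partial tuples. -/
theorem exists_tuples (B : ι → Finset A) (F : Finset ι) :
    ∃ Fam : Finset (ι → A), (∀ t ∈ Fam, ∀ i ∈ F, t i ∈ B i) ∧
      (∀ s ∈ ∑ i ∈ F, B i, ∃ t ∈ Fam, ∑ i ∈ F, t i = s) ∧
      ∀ C ⊆ F, ∀ t ∈ Fam, ∀ t' ∈ Fam, ∑ i ∈ C, t i = ∑ i ∈ C, t' i → ∀ i ∈ C, t i = t' i := by
  induction F using Finset.induction_on with
  | empty =>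
    refine ⟨{0}, by simp, ?_, ?_⟩
    · intro s hs
      refine ⟨0, mem_singleton_self _, ?_⟩
      rw [sum_empty] at hs ⊢
      exact (mem_zero.1 hs).symm
    · intro C hC t _ t' _ _ i hi
      exact absurd (hC hi) (notMem_empty i)
  | insert i0 F hi0 ih =>
    obtain ⟨Fam, h1, h2, h3⟩ := ih
    -- the rank of the elements of `B i0`
    let rk : A → ℕ := fun b => (B i0).toList.idxOf b
    have hrk : ∀ b ∈ B i0, ∀ b' ∈ B i0, rk b = rk b' → b = b' := by
      intro b hb b' hb' h
      exact (List.idxOf_inj (by rwa [mem_toList])).1 h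
    -- the choice
    have hch : ∀ s ∈ ∑ i ∈ insert i0 F, B i, ∃ b ∈ B i0, ∃ t ∈ Fam, b + ∑ i ∈ F, t i = s ∧
        ∀ b' ∈ B i0, ∀ u ∈ ∑ i ∈ F, B i, b' + u = s → rk b ≤ rk b' := by
      intro s hs
      rw [sum_insert hi0, mem_add] at hs
      obtain ⟨b1, hb1, u1, hu1, hbu⟩ := hs
      let Q : Finset A := (B i0).filter fun b => s - b ∈ ∑ i ∈ F, B i
      have hQ : Q.Nonempty := ⟨b1, mem_filter.2 ⟨hb1, by rw [← hbu, add_sub_cancel_left]; exact hu1⟩⟩
      obtain ⟨b, hb, hmin⟩ := exists_min_image Q rk hQ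
      rw [mem_filter] at hb
      obtain ⟨t, ht, hts⟩ := h2 _ hb.2
      refine ⟨b, hb.1, t, ht, by rw [hts, add_sub_cancel], ?_⟩
      intro b' hb' u hu hbu'
      apply hmin
      rw [mem_filter]
      exact ⟨hb', by rw [← hbu', add_sub_cancel_left]; exact hu⟩
    choose! b hb t ht hsum hmin using hch
    let Fam' : Finset (ι → A) :=
      (∑ i ∈ insert i0 F, B i).image fun s => Function.update (t s) i0 (b s)
    have hup : ∀ s, ∀ i ∈ F, Function.update (t s) i0 (b s) i = t s i := by
      intro s i hi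
      exact Function.update_of_ne (fun h => hi0 (by rw [← h]; exact hi)) _ _
    have hsumup : ∀ (C : Finset ι) (s : A), C ⊆ F →
        ∑ i ∈ C, Function.update (t s) i0 (b s) i = ∑ i ∈ C, t s i :=
      fun C s hC => sum_congr rfl fun i hi => hup s i (hC hi)
    refine ⟨Fam', ?_, ?_, ?_⟩
    · intro x hx i hi
      obtain ⟨s, hs, rfl⟩ := mem_image.1 hx
      rcases mem_insert.1 hi with rfl | hi
      · rw [Function.update_self]
        exact hb s hs
      · rw [hup s i hi]
        exact h1 _ (ht s hs) i hi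
    · intro s hs
      refine ⟨_, mem_image_of_mem _ hs, ?_⟩
      rw [sum_insert hi0, Function.update_self, hsumup F s subset_rfl, hsum s hs]
    · intro C hC x hx x' hx' hxx
      obtain ⟨s, hs, rfl⟩ := mem_image.1 hx
      obtain ⟨s', hs', rfl⟩ := mem_image.1 hx'
      by_cases hC0 : i0 ∈ C
      · -- the coordinate `i0` is determined
        set D := C.erase i0 with hD
        have hDF : D ⊆ F := by
          intro i hi
          rw [hD, mem_erase] at hi
          exact (mem_insert.1 (hC hi.2)).resolve_left hi.1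
        have hCD : C = insert i0 D := (insert_erase hC0).symm
        have hD0 : i0 ∉ D := notMem_erase _ _
        rw [hCD, sum_insert hD0, sum_insert hD0, Function.update_self, Function.update_self,
          hsumup D s hDF, hsumup D s' hDF] at hxx
        -- the exchange
        have key : ∀ s s', s ∈ ∑ i ∈ insert i0 F, B i → s' ∈ ∑ i ∈ insert i0 F, B i →
            b s + ∑ i ∈ D, t s i = b s' + ∑ i ∈ D, t s' i → rk (b s') ≤ rk (b s) := by
          intro s s' hs hs' hxx
          let y : ι → A := fun i => if i ∈ D then t s i else t s' i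
          have hy : ∑ i ∈ F, y i ∈ ∑ i ∈ F, B i := by
            rw [mem_sumset]
            refine ⟨y, ?_, rfl⟩
            intro i hi
            show (if i ∈ D then t s i else t s' i) ∈ B i
            split_ifs
            · exact h1 _ (ht s hs) i hi
            · exact h1 _ (ht s' hs') i hi
          apply hmin s' hs' (b s) (hb s hs) _ hy
          have e1 : ∑ i ∈ F, y i = ∑ i ∈ D, t s i + ∑ i ∈ F \ D, t s' i := by
            rw [← sum_sdiff hDF, add_comm]
            congr 1
            · exact sum_congr rfl fun i hi => if_pos hi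
            · exact sum_congr rfl fun i hi => if_neg (mem_sdiff.1 hi).2
          have e2 : ∑ i ∈ F, t s' i = ∑ i ∈ D, t s' i + ∑ i ∈ F \ D, t s' i := by
            rw [← sum_sdiff hDF, add_comm]
          calc b s + ∑ i ∈ F, y i = (b s + ∑ i ∈ D, t s i) + ∑ i ∈ F \ D, t s' i := by
                rw [e1, add_assoc]
            _ = b s' + ∑ i ∈ F, t s' i := by rw [hxx, e2, add_assoc]
            _ = s' := hsum s' hs'
        have hbb : b s = b s' := by
          apply hrk _ (hb s hs) _ (hb s' hs')
          exact le_antisymm (key s' s hs' hs hxx.symm) (key s s' hs hs' hxx)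
        have hDD : ∑ i ∈ D, t s i = ∑ i ∈ D, t s' i := by
          rw [hbb] at hxx
          exact add_left_cancel hxx
        have h4 := h3 D hDF _ (ht s hs) _ (ht s' hs') hDD
        intro i hi
        rw [hCD] at hi
        rcases mem_insert.1 hi with rfl | hi
        · rw [Function.update_self, Function.update_self, hbb]
        · rw [hup s i (hDF hi), hup s' i (hDF hi)]
          exact h4 i hi
      · have hCF : C ⊆ F := by
          intro i hi
          refine (mem_insert.1 (hC hi)).resolve_left ?_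
          rintro rfl
          exact hC0 hi
        rw [hsumup C s hCF, hsumup C s' hCF] at hxx
        intro i hi
        rw [hup s i (hCF hi), hup s' i (hCF hi)]
        exact h3 C hCF _ (ht s hs) _ (ht s' hs') hxx i hi

open Classical in
/-- Shearer's inequality for sumsets. -/
theorem shearer_sumset {J : Type*} [Fintype J] (B : ι → Finset A) (F : Finset ι)
    (hB : ∀ i ∈ F, (B i).Nonempty) (S : J → Finset ι) (hS : ∀ j, S j ⊆ F) (r : ℕ)
    (hr : ∀ i ∈ F, r ≤ (univ.filter (fun j => i ∈ S j)).card) :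
    (∑ i ∈ F, B i).card ^ r ≤ ∏ j, (∑ i ∈ S j, B i).card := by
  have hne : ∀ C ⊆ F, (∑ i ∈ C, B i).Nonempty := by
    intro C hC
    choose! x hx using hB
    exact ⟨∑ i ∈ C, x i, mem_sumset.2 ⟨x, fun i hi => hx _ (hC hi), rfl⟩⟩
  rcases Nat.eq_zero_or_pos r with rfl | hr0
  · rw [pow_zero]
    exact one_le_prod' fun j _ => card_pos.2 (hne _ (hS j))
  obtain ⟨Fam, h1, h2, h3⟩ := exists_tuples B F
  have hFne : Fam.Nonempty := by
    obtain ⟨s, hs⟩ := hne F subset_rfl
    obtain ⟨t, ht, _⟩ := h2 s hs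
    exact ⟨t, ht⟩
  have hmain := Pool.Agent.Helper948.Ent.A1.shearer_main F r hr0 Fam hFne S hS hr
  -- the projection to `F`
  have hF : (∑ i ∈ F, B i).card ≤
      (Fam.image (fun x => fun t : {t // t ∈ F} => x t.1)).card := by
    have hsub : ∑ i ∈ F, B i ⊆ (Fam.image (fun x => fun t : {t // t ∈ F} => x t.1)).image
        (fun y => ∑ i : {t // t ∈ F}, y i) := by
      intro s hs
      obtain ⟨t, ht, hts⟩ := h2 s hs
      rw [mem_image]
      refine ⟨_, mem_image_of_mem _ ht, ?_⟩
      rw [← hts]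
      exact Finset.sum_coe_sort F t
    exact (card_le_card hsub).trans card_image_le
  have hC : ∀ j, (Fam.image (fun x => fun t : {t // t ∈ S j} => x t.1)).card ≤
      (∑ i ∈ S j, B i).card := by
    intro j
    refine card_le_card_of_injOn (fun y => ∑ i : {t // t ∈ S j}, y i) ?_ ?_
    · intro y hy
      obtain ⟨x, hx, rfl⟩ := mem_image.1 (mem_coe.1 hy)
      rw [mem_coe, mem_sumset]
      refine ⟨x, fun i hi => h1 x hx _ (hS j hi), ?_⟩
      exact (Finset.sum_coe_sort (S j) x).symm
    · intro y hy y' hy' hyy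
      obtain ⟨x, hx, rfl⟩ := mem_image.1 (mem_coe.1 hy)
      obtain ⟨x', hx', rfl⟩ := mem_image.1 (mem_coe.1 hy')
      have hyy' : ∑ i ∈ S j, x i = ∑ i ∈ S j, x' i := by
        have e1 := Finset.sum_coe_sort (S j) x
        have e2 := Finset.sum_coe_sort (S j) x'
        rw [← e1, ← e2]
        exact hyy
      funext i
      exact h3 (S j) (hS j) x hx x' hx' hyy' i.1 i.2
  calc (∑ i ∈ F, B i).card ^ r ≤
        (Fam.image (fun x => fun t : {t // t ∈ F} => x t.1)).card ^ r := Nat.pow_le_pow_left hF r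
    _ ≤ _ := hmain
    _ ≤ _ := prod_le_prod' fun j _ => hC j

end Pool.Agent.Q92.Ent
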