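import Pool.Agent.Q92.Ent.Defs
import Pool.Agent.Q92.Ent.Sumset

/-!
The infimum rule for the algebraic entropy.
-/

set_option autoImplicit false

open Finset Filter Topology
open scoped Pointwise

namespace Pool.Agent.Q92.Ent

universe u v

section Basic

variable {G : Type u} [Group G] {A : Type v} [AddCommGroup A] [DistribMulAction G A]

open Classical in
lemma card_sum_mono {ι : Type*} (B : ι → Finset A) {C D : Finset ι} (h : C ⊆ D)
    (hB : ∀ i ∈ D, (B i).Nonempty) : (∑ i ∈ C, B i).card ≤ (∑ i ∈ D, B i).card := by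
  rw [← sum_sdiff h, add_comm]
  have hne : (∑ i ∈ D \ C, B i).Nonempty := by
    choose! x hx using hB
    exact ⟨∑ i ∈ D \ C, x i, mem_sumset.2 ⟨x, fun i hi => hx _ (mem_sdiff.1 hi).1, rfl⟩⟩
  exact card_le_card_add_right hne

open Classical in
lemma mem_traj {F : Finset G} {X : Finset A} {s : A} :
    s ∈ traj F X ↔ ∃ x : G → A, (∀ g ∈ F, x g ∈ X) ∧ ∑ g ∈ F, g • x g = s := by
  unfold traj
  rw [mem_sumset]
  constructor
  · rintro ⟨y, hy, rfl⟩
    refine ⟨fun g => g⁻¹ • y g, fun g hg => ?_, sum_congr rfl fun g _ => smul_inv_smul _ _⟩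
    obtain ⟨x, hx, hxy⟩ := mem_image.1 (hy g hg)
    show g⁻¹ • y g ∈ X
    rw [← hxy, inv_smul_smul]
    exact hx
  · rintro ⟨x, hx, rfl⟩
    exact ⟨fun g => g • x g, fun g hg => mem_image_of_mem _ (hx g hg), rfl⟩

lemma traj_nonempty (F : Finset G) {X : Finset A} (hX : X.Nonempty) : (traj F X).Nonempty := by
  obtain ⟨x, hx⟩ := hX
  exact ⟨_, mem_traj.2 ⟨fun _ => x, fun _ _ => hx, rfl⟩⟩

open Classical in
lemma card_traj_mono {C D : Finset G} (h : C ⊆ D) {X : Finset A} (hX : X.Nonempty) :
    (traj C X).card ≤ (traj D X).card :=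
  card_sum_mono _ h fun _ _ => hX.image _

open Classical in
/-- invariance under left translations -/
lemma card_traj_smul (s : G) (F : Finset G) (X : Finset A) :
    (traj (F.image (fun f => s * f)) X).card = (traj F X).card := by
  have h : traj (F.image (fun f => s * f)) X = (traj F X).image (fun a => s • a) := by
    ext a
    rw [mem_image]
    constructor
    · intro ha
      obtain ⟨x, hx, rfl⟩ := mem_traj.1 ha
      refine ⟨∑ f ∈ F, f • x (s * f), mem_traj.2 ⟨fun f => x (s * f), ?_, rfl⟩, ?_⟩
      · intro f hf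
        exact hx _ (mem_image_of_mem _ hf)
      · rw [sum_image (fun a _ b _ h => mul_left_cancel h), smul_sum]
        exact sum_congr rfl fun f _ => by rw [mul_smul]
    · rintro ⟨b, hb, rfl⟩
      obtain ⟨x, hx, rfl⟩ := mem_traj.1 hb
      refine mem_traj.2 ⟨fun g => x (s⁻¹ * g), ?_, ?_⟩
      · intro g hg
        obtain ⟨f, hf, rfl⟩ := mem_image.1 hg
        show x (s⁻¹ * (s * f)) ∈ X
        rw [inv_mul_cancel_left]
        exact hx f hf
      · rw [sum_image (fun a _ b _ h => mul_left_cancel h), smul_sum]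
        refine sum_congr rfl fun f _ => ?_
        show (s * f) • x (s⁻¹ * (s * f)) = s • f • x f
        rw [mul_smul, inv_mul_cancel_left]
  rw [h]
  exact card_image_of_injective _ (MulAction.injective s)

open Classical in
/-- The main inequality. -/
lemma card_traj_pow_le (F F0 : Finset G) {X : Finset A} (hX : X.Nonempty) :
    (traj F X).card ^ F0.card ≤ (traj F0 X).card ^ (F * F0⁻¹).card := by
  let S : {s // s ∈ F * F0⁻¹} → Finset G := fun s => F.filter fun g => (s : G)⁻¹ * g ∈ F0
  have h1 := shearer_sumset (fun g : G => X.image (fun x => g • x)) F (fun _ _ => hX.image _) S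
    (fun j => filter_subset _ _) F0.card (by
      intro g hg
      have hmem : ∀ f ∈ F0, g * f⁻¹ ∈ F * F0⁻¹ := fun f hf =>
        mul_mem_mul hg (inv_mem_inv hf)
      have hcard : (F0.attach.image (fun f : {x // x ∈ F0} => (⟨g * (f : G)⁻¹, hmem f f.2⟩ :
          {s // s ∈ F * F0⁻¹}))).card = F0.card := by
        rw [card_image_of_injective, card_attach]
        intro f f' hff
        have := congrArg Subtype.val hff
        exact Subtype.ext (inv_injective (mul_left_cancel this))
      rw [← hcard]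
      apply card_le_card
      intro s hs
      obtain ⟨f, _, rfl⟩ := mem_image.1 hs
      rw [mem_filter]
      refine ⟨mem_univ _, mem_filter.2 ⟨hg, ?_⟩⟩
      simp)
  have h2 : ∀ j, (∑ g ∈ S j, X.image (fun x => g • x)).card ≤ (traj F0 X).card := by
    intro j
    rw [← card_traj_smul (j : G) F0 X]
    apply card_traj_mono _ hX
    intro g hg
    rw [mem_image]
    exact ⟨(j : G)⁻¹ * g, (mem_filter.1 hg).2, mul_inv_cancel_left _ _⟩
  calc (traj F X).card ^ F0.card ≤ _ := h1
    _ ≤ ∏ _j : {s // s ∈ F * F0⁻¹}, (traj F0 X).card := prod_le_prod' fun j _ => h2 j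
    _ = (traj F0 X).card ^ (F * F0⁻¹).card := by
        rw [prod_const, card_univ, Fintype.card_coe]

/-- the ratio whose infimum is the entropy -/
noncomputable def rat (X : Finset A) (F : Finset G) : ℝ :=
  Real.log (traj F X).card / (F.card : ℝ)

lemma rat_nonneg (X : Finset A) (F : Finset G) : 0 ≤ rat X F :=
  div_nonneg (Real.log_natCast_nonneg _) (Nat.cast_nonneg _)

open Classical in
lemma rat_le {F F0 : Finset G} (hF : F.Nonempty) (hF0 : F0.Nonempty) {X : Finset A}
    (hX : X.Nonempty) :
    rat X F ≤ (((F * F0⁻¹).card : ℝ) / F.card) * rat X F0 := by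
  have h1 := card_traj_pow_le F F0 hX
  have hp : (0 : ℝ) < (traj F X).card := by exact_mod_cast (traj_nonempty F hX).card_pos
  have h2 : (F0.card : ℝ) * Real.log (traj F X).card ≤
      ((F * F0⁻¹).card : ℝ) * Real.log (traj F0 X).card := by
    rw [← Real.log_pow, ← Real.log_pow]
    apply Real.log_le_log (by positivity)
    exact_mod_cast h1
  have hFc : (0 : ℝ) < F.card := by exact_mod_cast hF.card_pos
  have hF0c : (0 : ℝ) < F0.card := by exact_mod_cast hF0.card_pos
  unfold rat
  rw [div_mul_div_comm, div_le_div_iff₀ hFc (by positivity)]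
  nlinarith

/-- the infimum of the ratios -/
noncomputable def infH (G : Type u) [Group G] {A : Type v} [AddCommGroup A]
    [DistribMulAction G A] (X : Finset A) : ℝ :=
  sInf {r : ℝ | ∃ F : Finset G, F.Nonempty ∧ r = rat X F}

lemma infH_le (X : Finset A) {F : Finset G} (hF : F.Nonempty) : infH G X ≤ rat X F :=
  csInf_le ⟨0, by rintro r ⟨F, _, rfl⟩; exact rat_nonneg X F⟩ ⟨F, hF, rfl⟩

lemma le_infH (X : Finset A) {c : ℝ} (h : ∀ F : Finset G, F.Nonempty → c ≤ rat X F) :
    c ≤ infH G X := by
  apply le_csInf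
  · exact ⟨_, {1}, singleton_nonempty 1, rfl⟩
  · rintro r ⟨F, hF, rfl⟩
    exact h F hF

lemma infH_nonneg (X : Finset A) : 0 ≤ infH G X := le_infH X fun F _ => rat_nonneg X F

open Classical in
lemma tendsto_card_mul {ι : Type u} [Preorder ι] {F : ι → Finset G} (hF : IsRightFolner F)
    (E : Finset G) (hE : E.Nonempty) :
    Tendsto (fun i => ((F i * E).card : ℝ) / (F i).card) atTop (𝓝 1) := by
  have h1 : Tendsto (fun i => 1 + ∑ g ∈ E,
      ((symmDiff ((F i).image (fun x => x * g)) (F i)).card : ℝ) / (F i).card) atTop (𝓝 1) := by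
    have h2 := tendsto_finsetSum E fun g _ => hF.tendsto g
    unfold sdc at h2
    simpa using h2.const_add 1
  refine tendsto_of_tendsto_of_tendsto_of_le_of_le tendsto_const_nhds h1 ?_ ?_
  · intro i
    have hpos : (0 : ℝ) < (F i).card := by exact_mod_cast (hF.nonempty i).card_pos
    show (1 : ℝ) ≤ _ / _
    rw [le_div_iff₀ hpos, one_mul]
    exact_mod_cast card_le_card_mul_right hE
  · intro i
    have hpos : (0 : ℝ) < (F i).card := by exact_mod_cast (hF.nonempty i).card_pos
    show _ / _ ≤ 1 + _
    rw [div_le_iff₀ hpos, add_mul, one_mul, sum_mul]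
    have h3 : F i * E ⊆ F i ∪ E.biUnion fun g => symmDiff ((F i).image (fun x => x * g)) (F i) := by
      intro y hy
      obtain ⟨x, hx, g, hg, rfl⟩ := mem_mul.1 hy
      by_cases hxg : x * g ∈ F i
      · exact mem_union_left _ hxg
      · refine mem_union_right _ (mem_biUnion.2 ⟨g, hg, ?_⟩)
        rw [mem_symmDiff]
        exact Or.inl ⟨mem_image_of_mem _ hx, hxg⟩
    have h4 : (F i * E).card ≤ (F i).card +
        ∑ g ∈ E, (symmDiff ((F i).image (fun x => x * g)) (F i)).card :=
      (card_le_card h3).trans ((card_union_le _ _).trans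
        (Nat.add_le_add_left card_biUnion_le _))
    have h5 : ((F i * E).card : ℝ) ≤ (F i).card +
        ∑ g ∈ E, ((symmDiff ((F i).image (fun x => x * g)) (F i)).card : ℝ) := by
      exact_mod_cast h4
    refine h5.trans (le_of_eq ?_)
    congr 1
    apply sum_congr rfl
    intro g _
    rw [div_mul_cancel₀ _ hpos.ne']

/-- The infimum rule. -/
theorem isHalg_infH {X : Finset A} (hX : X.Nonempty) : IsHalg G X (infH G X) := by
  intro ι _ _ _ F hF
  classical
  rw [tendsto_order]
  constructor
  · intro a ha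
    exact Eventually.of_forall fun i => ha.trans_le (infH_le X (hF.nonempty i))
  · intro a ha
    obtain ⟨r, ⟨F0, hF0, rfl⟩, hr⟩ := exists_lt_of_csInf_lt
      (s := {r : ℝ | ∃ F : Finset G, F.Nonempty ∧ r = rat X F})
      ⟨_, {1}, singleton_nonempty 1, rfl⟩ ha
    have h1 := (tendsto_card_mul hF F0⁻¹ hF0.inv).mul_const (rat X F0)
    rw [one_mul] at h1
    filter_upwards [h1.eventually_lt_const hr] with i hi
    exact (rat_le (hF.nonempty i) hF0 hX).trans_lt hi

/-- In an amenable group the value of the entropy is the infimum. -/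
theorem IsHalg.eq_infH (hG : IsAmenable G) {X : Finset A} (hX : X.Nonempty) {r : ℝ}
    (hr : IsHalg G X r) : r = infH G X := by
  obtain ⟨ι, _, _, _, F, hF⟩ := hG
  exact tendsto_nhds_unique (hr ι F hF) (isHalg_infH hX ι F hF)

end Basic

end Pool.Agent.Q92.Ent
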